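import Pool.Agent.Lib.DK.GL.Spec

/-!
# Abstract tower4: `s r - r` is divisible by 2 (helper11)
-/

set_option autoImplicit false

open scoped Pointwise

noncomputable section

namespace Pool.Agent.DK.GL

open Pool.Agent.MuZ Pool.Agent.FW Pool.Agent.DI Pool.Agent.DI.G
open Pool.Agent.DI.GL (Fx StP xx mem_of_Fx)

private theorem G4_key {P : Ideal ZZ} [hP : P.IsPrime] {r α b : Om} (hr : r = α + b) (hv : VP P r)
    (h : α ≠ 0 → b ≠ 0 → ¬ UP P (α / b)) : VP P b := by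
  by_cases hα : α = 0
  · rw [hα, zero_add] at hr
    rwa [hr] at hv
  by_cases hb : b = 0
  · rw [hb]
    exact VP.zero
  have h1 := h hα hb
  rcases VP.or_inv (P := P) (α / b) with h2 | h2
  · by_cases h3 : MP P (α / b)
    · have h4 : UP P (1 + α / b) := UP.congr UP.one (by rwa [add_sub_cancel_left])
      have h5 : b = r * (1 + α / b)⁻¹ := by
        rw [eq_mul_inv_iff_mul_eq₀ h4.ne_zero, hr, mul_add, mul_div_cancel₀ _ hb]
        ring
      rw [h5]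
      exact hv.mul h4.inv.1
    · exact absurd ⟨h2, h3⟩ h1
  · have h4 : UP P (1 + (α / b)⁻¹) := UP.congr UP.one (by rwa [add_sub_cancel_left])
    have h5 : b = r * (1 + (α / b)⁻¹)⁻¹ * (α / b)⁻¹ := by
      have h6 : r = α * (1 + (α / b)⁻¹) := by
        rw [hr, inv_div, mul_add, mul_div_cancel₀ _ hα]
        ring
      rw [h6, mul_inv_cancel_right₀ h4.ne_zero, inv_div, mul_div_cancel₀ _ hα]
    rw [h5]
    exact (hv.mul h4.inv.1).mul h2.vp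

theorem tG4 : S_G4 := by
  intro hX hD hE L LN P h N hN s hs hsζ r hr hv
  have hP := h.prime
  obtain ⟨M, rfl⟩ : ∃ M, N = M + 1 := ⟨N - 1, by omega⟩
  have hM : 2 ≤ M := by omega
  obtain ⟨ζ', hζ'⟩ := HasEnoughRootsOfUnity.exists_primitiveRoot Om (2 ^ (M + 1))
  have hζ : IsPrimitiveRoot (ζ' ^ 2) (2 ^ M) := hζ'.pow (by positivity) (by rw [pow_succ]; ring)
  obtain ⟨x0, -, -, -, hx⟩ := hX P hP h.two M hM (ζ' ^ 2) hζ
  have hy2 : (ζ' + ζ'⁻¹) ^ 2 = xx (ζ' ^ 2) := (hx ζ' rfl).1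
  obtain ⟨α, hα, β, hβ, hr'⟩ := hD L LN P h M hM ζ' hζ' r hr
  have hsL : Fx (LN M) s := (h.lnx M (ζ' ^ 2) hζ s).2 ⟨hs, Or.inl (by
    rw [map_pow, hsζ ζ' hζ']
    ring)⟩
  have hsy : s (ζ' + ζ'⁻¹) = -(ζ' + ζ'⁻¹) := by
    rw [map_add, map_inv₀, hsζ ζ' hζ', inv_neg]
    ring
  obtain ⟨y, hy⟩ : ∃ y, y = ζ' + ζ'⁻¹ := ⟨_, rfl⟩
  rw [← hy] at hy2 hr' hsy
  have hE2 := hE L LN P h M hM (ζ' ^ 2) hζ
  rw [← hy2] at hE2
  have key : VP P (β * y) := by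
    refine G4_key hr' hv fun h1 h2 h3 => ?_
    refine hE2 (α / β) (div_mem hα hβ) ?_
    have h4 : (α / β) ^ 2 / y ^ 2 = (α / (β * y)) ^ 2 := by
      rw [div_pow, div_div, ← mul_pow, div_pow]
    rw [h4]
    exact h3.pow 2
  refine ⟨-(β * y), key.neg, ?_⟩
  rw [hr', map_add, map_mul, hsL α hα, hsL β hβ, hsy]
  ring

end Pool.Agent.DK.GL
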