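import Pool.Agent.Lib.DK.GL.Spec

/-!
# Abstract tower: G8b (author helper53)

The local lemma: passage from the Kummer character of `w` to `s w - w`.
-/

set_option autoImplicit false

open scoped Pointwise

noncomputable section

namespace Pool.Agent.DK.GL

open Pool.Agent.MuZ Pool.Agent.FW Pool.Agent.DI Pool.Agent.DI.G
open Pool.Agent.DI.GL (Fx StP xx mem_of_Fx)

private theorem G8b_prop {N : ℕ} {ζ : Om} (hζ : IsPrimitiveRoot ζ (2 ^ N)) : ζ ≠ 0 :=
  hζ.ne_zero (pow_ne_zero _ (by norm_num))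

/-- `ζ ^ 2 ^ (N - 1) = -1`. -/
private theorem G8b_half {N : ℕ} (hN : 1 ≤ N) {ζ : Om} (hζ : IsPrimitiveRoot ζ (2 ^ N)) :
    ζ ^ 2 ^ (N - 1) = -1 := by
  have hpow : 2 ^ N = 2 ^ (N - 1) * 2 := by
    rw [← pow_succ]
    congr 1
    omega
  have h1 : IsPrimitiveRoot (ζ ^ 2 ^ (N - 1)) 2 :=
    hζ.pow (pow_pos (by norm_num) _) hpow
  exact h1.eq_neg_one_of_two_right

/-- `xx ζ` is in `L_N`. -/
private theorem G8b_mem {L : IntermediateField ℚ Om} {LN : ℕ → IntermediateField ℚ Om}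
    {P : Ideal ZZ} (hS : Sit L LN P) {N : ℕ} {ζ : Om}
    (hζ : IsPrimitiveRoot ζ (2 ^ N)) : xx ζ ∈ LN N := by
  refine mem_of_Fx fun τ hτ => ?_
  have h2 := ((hS.lnx N ζ hζ τ).1 hτ).2
  unfold xx
  rw [map_add, map_add, map_inv₀, map_ofNat]
  rcases h2 with h | h
  · rw [h]
  · rw [h, inv_inv]
    ring

/-- In the case `b = 0` the number `4` divides `s w - w`. -/
private theorem G8b_main {P : Ideal ZZ} (hP : P.IsPrime) (hI : DI.GL.S_Iu)
    {L : IntermediateField ℚ Om} {LN : ℕ → IntermediateField ℚ Om}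
    (hS : Sit L LN P) {N : ℕ} (hN : 3 ≤ N) {s : Gal(Om/ℚ)} (hs : Fx L s) {ζ : Om}
    (hζ : IsPrimitiveRoot ζ (2 ^ N)) (hsz : s ζ = -ζ) {w : Om} (hw : w ∈ LN N) {e : Om}
    (he : e = 1 ∨ e = -1) {r r' y : Om} (hr : r ^ 2 = w * e) (hr' : r' ∈ LN N)
    (hVr : VP P r) (hy : VP P y) (hry : r - r' = 4 * y) (hG : TP P 2 (s r' - r')) :
    TP P 4 (s w - w) := by
  have := hP
  obtain ⟨ι, hι, hιz⟩ := hI P hP hS.two N (1 + 2 ^ (N - 1)) (by
    rw [add_comm]
    exact Even.add_one (Nat.even_pow.2 ⟨even_two, by omega⟩))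
  have hιζ : ι ζ = -ζ := by
    rw [hιz ζ hζ.pow_eq_one, pow_add, pow_one, G8b_half (by omega) hζ]
    ring
  -- `ι = s` on `L_N`
  have hfx : Fx (LN N) (s⁻¹ * ι) := by
    refine (hS.lnx N ζ hζ (s⁻¹ * ι)).2 ⟨(Fx.inv hs).mul (hS.inr ι hι), Or.inl ?_⟩
    rw [AlgEquiv.mul_apply, hιζ, ← hsz, ← AlgEquiv.mul_apply, inv_mul_cancel, AlgEquiv.one_apply]
  have heq : ∀ x ∈ LN N, ι x = s x := by
    intro x hx
    have h1 := hfx x hx
    have h2 := congrArg (fun t => s t) h1
    simp only [AlgEquiv.mul_apply] at h2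
    rw [← AlgEquiv.mul_apply s, mul_inv_cancel, AlgEquiv.one_apply] at h2
    exact h2
  obtain ⟨z, hz, hz'⟩ := hG
  have hιy : VP P (ι y) := VP.inertia_vp hι hy
  have h4 : ι (4 : Om) = 4 := map_ofNat ι 4
  have hrr : r = r' + 4 * y := by linear_combination hry
  have hιr : ι r = ι r' + 4 * ι y := by
    rw [hrr, map_add, map_mul, h4]
  have hιr' : ι r' = r' + 2 * z := by
    rw [heq r' hr']
    linear_combination hz'
  have hd : ι r - r = 2 * (z + 2 * (ι y - y)) := by
    rw [hιr, hιr', hrr]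
    ring
  have hsum : ι r + r = 2 * (z + 2 * (ι y - y) + r) := by
    linear_combination hd
  have h2V : VP P (2 : Om) := by exact_mod_cast VP.nat (P := P) 2
  have hV1 : VP P (z + 2 * (ι y - y)) := hz.add (h2V.mul (hιy.sub hy))
  have hsq : ι (r ^ 2) = ι w * ι e := by rw [hr, map_mul]
  have hιe : ι e = e := by
    rcases he with h | h
    · rw [h, map_one]
    · rw [h, map_neg, map_one]
  have hee : e * e = 1 := by
    rcases he with h | h
    · rw [h]; ring
    · rw [h]; ring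
  have hVe : VP P e := by
    rcases he with h | h
    · rw [h]; exact VP.one
    · rw [h]; exact VP.one.neg
  have hwι : ι w = s w := heq w hw
  refine ⟨e * ((z + 2 * (ι y - y)) * (z + 2 * (ι y - y) + r)), hVe.mul (hV1.mul (hV1.add hVr)), ?_⟩
  have h5 : ι r ^ 2 = s w * e := by
    rw [← map_pow, hsq, hιe, hwι]
  have h6 : (ι r - r) * (ι r + r) = e * (s w - w) := by
    linear_combination h5 - hr
  have h7 : s w - w = e * ((ι r - r) * (ι r + r)) := by
    rw [h6]
    linear_combination (-(s w - w)) * hee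
  rw [h7, hd, hsum]
  ring

theorem tG8b : S_G8b := by
  intro hI hX hApp hEv hG4 L LN P hS N hN s hs hsz ζ hζ w hw hwU e b he hb r hr hinv
  have hP := hS.prime
  have hPi := hS.prime
  obtain ⟨hx0, hxM, hxV, -, -⟩ := hX P hP hS.two N (by omega) ζ hζ
  have hxL : xx ζ ∈ LN N := G8b_mem hS hζ
  have heL : e ∈ LN N := by
    rcases he with h | h
    · rw [h]; exact one_mem _
    · rw [h]; exact neg_mem (one_mem _)
  have hVe : VP P e := by
    rcases he with h | h
    · rw [h]; exact VP.one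
    · rw [h]; exact VP.one.neg
  have hUe : UP P e := by
    rcases he with h | h
    · rw [h]; exact UP.one
    · rw [h]; exact UP.one.neg
  have hrL : r ^ 2 ∈ LN N := by
    rw [hr]
    exact mul_mem hw (mul_mem heL (pow_mem hxL b))
  obtain ⟨r', hr'L, y, hy, hry⟩ := hApp (LN N) P hP hS.two r hrL hinv 2
  have hry' : r - r' = 4 * y := by
    rw [hry]
    norm_num
  have hVr : VP P r := by
    refine VP.of_pow (n := 2) (by norm_num) ?_
    rw [hr]
    exact hwU.1.mul (hVe.mul (hxM.vp.pow b))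
  have h2V : VP P (2 : Om) := by exact_mod_cast VP.nat (P := P) 2
  have h4V : VP P (4 : Om) := by exact_mod_cast VP.nat (P := P) 4
  have hVr' : VP P r' := by
    have h1 : r' = r - 4 * y := by linear_combination -hry'
    rw [h1]
    exact hVr.sub (h4V.mul hy)
  rcases hb with hb | hb
  · -- `b = 0`
    subst hb
    have hr0 : r ^ 2 = w * e := by
      rw [hr, pow_zero, mul_one]
    exact G8b_main hP hI hS hN hs hζ (hsz ζ hζ) hw he hr0 hr'L hVr hy hry'
      (hG4 L LN P hS N hN s hs hsz r' hr'L hVr')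
  · -- `b = 1`
    exfalso
    subst hb
    refine hEv L LN P hS N (by omega) ζ hζ r' hr'L ?_
    have h1 : r' ^ 2 / xx ζ - w * e = 2 * (-(2 * ((2 / xx ζ) * (r * y))) +
        4 * ((2 / xx ζ) * y ^ 2)) := by
      have h2 : r' = r - 4 * y := by linear_combination -hry'
      rw [h2]
      field_simp
      rw [pow_one] at hr
      linear_combination hr
    refine (hwU.mul hUe).congr ?_
    rw [h1, mul_comm]
    refine MP.mul_left ?_ hS.two
    exact (h2V.mul (hxV.mul (hVr.mul hy))).neg.add (h4V.mul (hxV.mul (hy.pow 2)))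

end Pool.Agent.DK.GL
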