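import Pool.Agent.Lib.DK.GL.Spec

/-!
# Abstract tower9: passage from `kap` to the sum over `D`
-/

set_option autoImplicit false

open scoped Pointwise

noncomputable section

namespace Pool.Agent.DK.GL

open Pool.Agent.MuZ Pool.Agent.FW Pool.Agent.DI Pool.Agent.DI.G
open Pool.Agent.DI.GL (Fx StP xx mem_of_Fx)

private theorem G9_add {P : Ideal ZZ} [hP : P.IsPrime] {t x y : Om} (hx : TP P t x) (hy : TP P t y) :
    TP P t (x + y) := by
  obtain ⟨a, ha, rfl⟩ := hx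
  obtain ⟨b, hb, rfl⟩ := hy
  exact ⟨a + b, ha.add hb, by ring⟩

private theorem G9_sub {P : Ideal ZZ} [hP : P.IsPrime] {t x y : Om} (hx : TP P t x) (hy : TP P t y) :
    TP P t (x - y) := by
  obtain ⟨a, ha, rfl⟩ := hx
  obtain ⟨b, hb, rfl⟩ := hy
  exact ⟨a - b, ha.sub hb, by ring⟩

private theorem G9_zero {P : Ideal ZZ} [hP : P.IsPrime] (t : Om) : TP P t 0 :=
  ⟨0, VP.zero, by rw [mul_zero]⟩

private theorem G9_sum {P : Ideal ZZ} [hP : P.IsPrime] {ι : Type*} (t : Om) (S : Finset ι) (F : ι → Om)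
    (h : ∀ i ∈ S, TP P t (F i)) : TP P t (∑ i ∈ S, F i) := by
  classical
  induction S using Finset.induction_on with
  | empty =>
    rw [Finset.sum_empty]
    exact G9_zero t
  | insert a S ha ih =>
    rw [Finset.sum_insert ha]
    exact G9_add (h a (Finset.mem_insert_self a S)) (ih fun i hi => h i (Finset.mem_insert_of_mem hi))

private theorem G9_mul {P : Ideal ZZ} [hP : P.IsPrime] {t x y : Om} (hx : VP P x) (hy : TP P t y) :
    TP P t (x * y) := by
  obtain ⟨b, hb, rfl⟩ := hy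
  exact ⟨x * b, hx.mul hb, by ring⟩

private theorem G9_four {P : Ideal ZZ} [hP : P.IsPrime] {x y : Om} (hx : TP P 2 x) (hy : TP P 2 y) :
    TP P 4 (x * y) := by
  obtain ⟨a, ha, rfl⟩ := hx
  obtain ⟨b, hb, rfl⟩ := hy
  exact ⟨a * b, ha.mul hb, by ring⟩

private theorem G9_div {P : Ideal ZZ} [hP : P.IsPrime] {t x w : Om} (hw : UP P w)
    (h : TP P t (x - w)) : TP P t (x / w - 1) := by
  obtain ⟨y, hy, hxy⟩ := h
  have h0 : w ≠ 0 := hw.ne_zero
  refine ⟨y * w⁻¹, hy.mul (VP.inv hw.1 hw.2), ?_⟩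
  have h1 : x / w - 1 = (x - w) * w⁻¹ := by
    field_simp
  rw [h1, hxy]
  ring

/-- The decomposition of a sum over `D`. -/
private theorem G9_split {ι : Type} {n : ℕ} (D : Finset ι) (χ : ι → Om) (b : Fin n → ι) (c : Fin n → ι → ℕ)
    (C : ι → Om) : ∑ v ∈ D, χ v * C v =
      ∑ v ∈ D, (χ v - ∑ i, (c i v : Om) * χ (b i)) * C v +
        ∑ i, χ (b i) * ∑ v ∈ D, (c i v : Om) * C v := by
  have h1 : ∑ i, χ (b i) * ∑ v ∈ D, (c i v : Om) * C v =
      ∑ v ∈ D, (∑ i, (c i v : Om) * χ (b i)) * C v := by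
    simp only [Finset.mul_sum, Finset.sum_mul]
    rw [Finset.sum_comm]
    refine Finset.sum_congr rfl fun v _ => Finset.sum_congr rfl fun i _ => ?_
    ring
  rw [h1, ← Finset.sum_add_distrib]
  refine Finset.sum_congr rfl fun v _ => ?_
  ring

private theorem G9_kid (hKap : DI.GL.S_Kap) (d : Gal(Om/ℚ)) : kap 1 d = 0 :=
  (hKap.1 1 1 d (one_pow 2)).2 (map_one d)

private theorem G9_kpow (hKap : DI.GL.S_Kap) (u : Om) (d : Gal(Om/ℚ)) (hu : u ≠ 0) (h : d u = u)
    (c : ℕ) : kap (u ^ c) d = (c : ZMod 2) * kap u d := by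
  induction c with
  | zero => rw [pow_zero, G9_kid hKap, Nat.cast_zero, zero_mul]
  | succ c ih =>
    rw [pow_succ, hKap.2.1 _ _ d (pow_ne_zero c hu) hu (by rw [map_pow, h]) h, ih, Nat.cast_succ]
    ring

/-- `kap` of a product, arbitrary index type. -/
private theorem G9_kprod (hKap : DI.GL.S_Kap) {ι : Type} (s : Finset ι) (u : ι → Om) (c : ι → ℕ)
    (d : Gal(Om/ℚ)) : (∀ v ∈ s, u v ≠ 0 ∧ d (u v) = u v) →
    kap (∏ v ∈ s, u v ^ c v) d = ∑ v ∈ s, (c v : ZMod 2) * kap (u v) d := by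
  classical
  induction s using Finset.induction_on with
  | empty =>
    intro _
    rw [Finset.prod_empty, Finset.sum_empty]
    exact G9_kid hKap d
  | insert a s ha ih =>
    intro h
    have h1 := ih fun v hv => h v (Finset.mem_insert_of_mem hv)
    obtain ⟨h2, h3⟩ := h a (Finset.mem_insert_self a s)
    rw [Finset.prod_insert ha, Finset.sum_insert ha, ← h1, ← G9_kpow hKap (u a) d h2 h3 (c a)]
    apply hKap.2.1
    · exact pow_ne_zero _ h2
    · exact Finset.prod_ne_zero_iff.2 fun v hv =>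
        pow_ne_zero _ (h v (Finset.mem_insert_of_mem hv)).1
    · rw [map_pow, h3]
    · rw [map_prod]
      refine Finset.prod_congr rfl fun v hv => ?_
      rw [map_pow, (h v (Finset.mem_insert_of_mem hv)).2]

/-- **G9.** -/
theorem tG9 : S_G9 := by
  intro hKap hRR hLin hDad hG4 hG8 L LN P hS N hN s hs hζ ι D u hu χ m hm hχ hk
  have hP : P.IsPrime := hS.prime
  have h2 : MP P 2 := hS.two
  have hV : ∀ v, VP P (χ v) := by
    intro v
    rcases hχ v with h | h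
    · rw [h]
      exact VP.zero
    · refine VP.of_pow hm.pos ?_
      rw [h]
      exact VP.one
  obtain ⟨n, b, c, hind, hc⟩ := hLin P hP h2 ι χ hV D
  have hρ : ∀ v ∈ D, TP P 2 (χ v - ∑ i, (c i v : Om) * χ (b i)) := by
    intro v hv
    refine hRR ι χ m hm hχ P hP h2 _ ?_ (hc v hv)
    refine sub_mem (Algebra.subset_adjoin ⟨v, rfl⟩) (sum_mem fun i _ => ?_)
    exact mul_mem (natCast_mem _ _) (Algebra.subset_adjoin ⟨b i, rfl⟩)
  have hw1 : ∀ i, (∏ v ∈ D, u v ^ c i v) ∈ LN N := fun i =>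
    prod_mem fun v hv => pow_mem (hu v hv).1 _
  have hw2 : ∀ i, UP P (∏ v ∈ D, u v ^ c i v) := fun i =>
    UP.prod D _ fun v hv => UP.pow (hu v hv).2 _
  have hkap : ∀ i, ∀ d : Gal(Om/ℚ), DD LN P d → kap (∏ v ∈ D, u v ^ c i v) d = 0 := by
    intro i d hd
    have h3 := hk d hd
    rw [G9_split D χ b c] at h3
    have h4 : MP P (∑ v ∈ D, (χ v - ∑ i, (c i v : Om) * χ (b i)) * ((kap (u v) d).val : Om)) :=
      MP.sum D _ fun v hv => MP.mul_right (hc v hv) (VP.nat _)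
    have h5 := h3.sub h4
    rw [add_sub_cancel_left] at h5
    have h6 : ∑ i, χ (b i) * ∑ v ∈ D, (c i v : Om) * ((kap (u v) d).val : Om) =
        ∑ i, ((∑ v ∈ D, c i v * (kap (u v) d).val : ℕ) : Om) * χ (b i) := by
      refine Finset.sum_congr rfl fun i _ => ?_
      push_cast
      ring
    rw [h6] at h5
    have h7 := hind _ h5 i
    rw [G9_kprod hKap D u (c i) d (fun v hv => ⟨(hu v hv).2.ne_zero, hd.2.1 N _ (hu v hv).1⟩)]
    have h8 := (ZMod.natCast_eq_zero_iff _ 2).2 h7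
    push_cast at h8
    simpa only [ZMod.natCast_zmod_val] using h8
  have hwi : ∀ i, TP P 4 (s (∏ v ∈ D, u v ^ c i v) / (∏ v ∈ D, u v ^ c i v) - 1) := fun i =>
    G9_div (hw2 i) (hG8 L LN P hS N hN s hs hζ _ (hw1 i) (hw2 i) (hkap i))
  have huv : ∀ v ∈ D, TP P 2 (s (u v) / u v - 1) := fun v hv =>
    G9_div (hu v hv).2 (hG4 L LN P hS N hN s hs hζ _ (hu v hv).1 (hu v hv).2.1)
  have hD : ∀ i, TP P 4 (∑ v ∈ D, (c i v : Om) * (s (u v) / u v - 1)) := by
    intro i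
    have h3 := hDad P hP h2 s ι D u (c i) (fun v hv => ⟨(hu v hv).2.ne_zero, huv v hv⟩)
    have h4 := G9_sub (hwi i) h3
    rwa [sub_sub_cancel] at h4
  rw [G9_split D χ b c]
  refine G9_add (G9_sum _ _ _ fun v hv => G9_four (hρ v hv) (huv v hv))
    (G9_sum _ _ _ fun i _ => G9_mul (hV _) (hD i))

end Pool.Agent.DK.GL
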