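import Pool.Agent.Lib.DK.GL.Spec

set_option autoImplicit false

/-! # Abstract tower, module Lin: a basis of residues -/

open scoped Pointwise

noncomputable section

namespace Pool.Agent.DK.GL

open Pool.Agent.MuZ Pool.Agent.FW Pool.Agent.DI Pool.Agent.DI.G
open Pool.Agent.DI.GL (Fx StP xx mem_of_Fx)

/-- A basis of residues. -/
theorem tLin : S_Lin := by
  intro P hP h2 ι χ hχ D
  classical
  have := hP
  classical
  have hnat : ∀ (n : ℕ) (b : Fin n → ι) (e : Fin n → ℕ), VP P (∑ i, (e i : Om) * χ (b i)) :=
    fun n b e => VP.sum _ _ fun i _ => (VP.nat (e i)).mul (hχ (b i))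
  induction D using Finset.induction_on with
  | empty =>
    refine ⟨0, Fin.elim0, Fin.elim0, fun e _ i => i.elim0, fun v hv => ?_⟩
    exact absurd hv (Finset.notMem_empty v)
  | insert v D hv ih =>
    obtain ⟨n, b, c, hb, hc⟩ := ih
    by_cases h : ∃ c0 : Fin n → ℕ, MP P (χ v - ∑ i, (c0 i : Om) * χ (b i))
    · obtain ⟨c0, hc0⟩ := h
      refine ⟨n, b, fun i w => if w = v then c0 i else c i w, hb, fun w hw => ?_⟩
      by_cases hwv : w = v
      · subst hwv
        simp only [if_true]
        exact hc0
      · simp only [if_neg hwv]
        exact hc w (Finset.mem_of_mem_insert_of_ne hw hwv)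
    · refine ⟨n + 1, Fin.cons v b, Fin.cons (fun w => if w = v then 1 else 0)
        fun i w => if w = v then 0 else c i w, ?_, fun w hw => ?_⟩
      · intro e he
        rw [Fin.sum_univ_succ] at he
        simp only [Fin.cons_zero, Fin.cons_succ] at he
        obtain ⟨k, hk⟩ | ⟨k, hk⟩ := Nat.even_or_odd (e 0)
        · have h3 : MP P ((e 0 : Om) * χ v) := by
            have e1 : (e 0 : Om) * χ v = 2 * ((k : Om) * χ v) := by
              rw [hk]
              push_cast
              ring
            rw [e1]
            exact MP.mul_right h2 ((VP.nat k).mul (hχ v))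
          have h4 := he.sub h3
          rw [add_sub_cancel_left] at h4
          have h5 := hb (fun i => e i.succ) h4
          intro i
          refine Fin.cases ?_ (fun i => ?_) i
          · exact ⟨k, by omega⟩
          · exact h5 i
        · exfalso
          apply h
          refine ⟨fun i => e i.succ, ?_⟩
          have e1 : χ v - ∑ i : Fin n, (e i.succ : Om) * χ (b i) =
              ((e 0 : Om) * χ v + ∑ i : Fin n, (e i.succ : Om) * χ (b i)) -
              2 * ((k : Om) * χ v + ∑ i : Fin n, (e i.succ : Om) * χ (b i)) := by
            rw [hk]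
            push_cast
            ring
          rw [e1]
          exact he.sub (MP.mul_right h2 (((VP.nat k).mul (hχ v)).add
            (hnat n b fun i => e i.succ)))
      · rw [Fin.sum_univ_succ]
        simp only [Fin.cons_zero, Fin.cons_succ]
        by_cases hwv : w = v
        · subst hwv
          simp only [if_true, Nat.cast_one, one_mul, Nat.cast_zero, zero_mul,
            Finset.sum_const_zero, add_zero, sub_self]
          exact MP.zero
        · simp only [if_neg hwv, Nat.cast_zero, zero_mul, zero_add]
          exact hc w (Finset.mem_of_mem_insert_of_ne hw hwv)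

end Pool.Agent.DK.GL
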