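import Pool.Agent.Lib.DK.GL.D2
import Pool.Agent.Lib.DK.GL.Ev
import Pool.Agent.Lib.DK.GL.G4
import Pool.Agent.Lib.DK.GL.Cpt
import Pool.Agent.Lib.DK.GL.G8a
import Pool.Agent.Lib.DK.GL.G8b
import Pool.Agent.Lib.DK.GL.G8
import Pool.Agent.Lib.DK.GL.RR
import Pool.Agent.Lib.DK.GL.Lin
import Pool.Agent.Lib.DK.GL.Dad
import Pool.Agent.Lib.DK.GL.G9

/-!
# Abstract tower: G4, G8, G9 without hypotheses
-/

set_option autoImplicit false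

noncomputable section

namespace Pool.Agent.DK.GL

open Pool.Agent.MuZ Pool.Agent.FW Pool.Agent.DI Pool.Agent.DI.G
open Pool.Agent.DI.GL (Fx StP xx mem_of_Fx tIu tX0 tStb tArch tKap tApp tPw)

/-- **G4.** -/
theorem g4 (L : IntermediateField ℚ Om) (LN : ℕ → IntermediateField ℚ Om) (P : Ideal ZZ)
    (hS : Sit L LN P) (N : ℕ) (hN : 3 ≤ N) (s : Gal(Om/ℚ)) (hs : Fx L s)
    (hz : ∀ ζ : Om, IsPrimitiveRoot ζ (2 ^ N) → s ζ = -ζ) :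
    ∀ r ∈ LN N, VP P r → TP P 2 (s r - r) :=
  tG4 tX0 (tD2 tIu tX0) (tEv tX0 (tD2 tIu tX0)) L LN P hS N hN s hs hz

/-- **G8.** The local lemma. -/
theorem g8 (L : IntermediateField ℚ Om) (LN : ℕ → IntermediateField ℚ Om) (P : Ideal ZZ)
    (hS : Sit L LN P) (N : ℕ) (hN : 3 ≤ N) (s : Gal(Om/ℚ)) (hs : Fx L s)
    (hz : ∀ ζ : Om, IsPrimitiveRoot ζ (2 ^ N) → s ζ = -ζ) :
    ∀ w ∈ LN N, UP P w → (∀ d : Gal(Om/ℚ), DD LN P d → kap w d = 0) → TP P 4 (s w - w) :=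
  tG8 (tCpt tStb) tKap (tG8a tIu tX0 tStb tKap tPw)
    (tG8b tIu tX0 (tApp tStb tArch) (tEv tX0 (tD2 tIu tX0)) g4) L LN P hS N hN s hs hz

/-- **G9.** Passage from the Kummer characters `kap` to `s w / w - 1`. -/
theorem g9 (L : IntermediateField ℚ Om) (LN : ℕ → IntermediateField ℚ Om) (P : Ideal ZZ)
    (hS : Sit L LN P) (N : ℕ) (hN : 3 ≤ N) (s : Gal(Om/ℚ)) (hs : Fx L s)
    (hz : ∀ ζ : Om, IsPrimitiveRoot ζ (2 ^ N) → s ζ = -ζ) (ι : Type) (D : Finset ι) (u : ι → Om)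
    (hu : ∀ v ∈ D, u v ∈ LN N ∧ UP P (u v)) (χ : ι → Om) (m : ℕ) (hm : Odd m)
    (hχ : ∀ v, χ v = 0 ∨ χ v ^ m = 1)
    (hk : ∀ d : Gal(Om/ℚ), DD LN P d → MP P (∑ v ∈ D, χ v * ((kap (u v) d).val : Om))) :
    TP P 4 (∑ v ∈ D, χ v * (s (u v) / u v - 1)) :=
  tG9 tKap (tRR fun P hP h2 => (tArch P hP h2).2.1) tLin tDad g4 g8 L LN P hS N hN s hs hz ι D u
    hu χ m hm hχ hk

end Pool.Agent.DK.GL
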