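import Pool.Agent.Lib.DI.G.L.Iu
import Pool.Agent.Lib.DI.G.L.X0
import Pool.Agent.Lib.DI.G.L.Stb
import Pool.Agent.Lib.DI.G.L.Arch
import Pool.Agent.Lib.DI.G.L.Kap
import Pool.Agent.Lib.DI.G.L.App
import Pool.Agent.Lib.DI.G.L.Pw

/-!
# The local lemma (G4, G8, G9) for an abstract tower (author helper21)

`P` is a prime of the integral closure `ZZ` above `2`.  `L` is a Galois extension of `ℚ` which is unramified at `P`,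
`LN N` the tower `L (ζ + ζ⁻¹)`, `ζ` a primitive root of unity of order `2 ^ N`.  The statements are those of
`DI/G/SpecL.lean`, with `Lf f`, `Ln f N` replaced by `L`, `LN N`, and an arbitrary index type.
-/

set_option autoImplicit false

open scoped Pointwise

noncomputable section

namespace Pool.Agent.DK.GL

open Pool.Agent.MuZ Pool.Agent.FW Pool.Agent.DI Pool.Agent.DI.G
open Pool.Agent.DI.GL (Fx StP xx mem_of_Fx Fx.mul Fx.inv Fx.one)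

/-- The facts on the fields `L`, `L_N` which are used. -/
structure Sit (L : IntermediateField ℚ Om) (LN : ℕ → IntermediateField ℚ Om) (P : Ideal ZZ) : Prop where
  prime : P.IsPrime
  two : MP P 2
  nrm : ∀ τ : Gal(Om/ℚ), ∀ x ∈ L, τ x ∈ L
  lnn : ∀ (N : ℕ) (τ : Gal(Om/ℚ)), ∀ x ∈ LN N, τ x ∈ LN N
  inr : ∀ τ ∈ P.inertia Gal(Om/ℚ), Fx L τ
  unr : Unr P L
  lnx : ∀ (N : ℕ) (ζ : Om), IsPrimitiveRoot ζ (2 ^ N) → ∀ τ : Gal(Om/ℚ),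
    Fx (LN N) τ ↔ Fx L τ ∧ (τ ζ = ζ ∨ τ ζ = ζ⁻¹)

/-- `d` is in the group `D_P ∩ Gal(Om/L_∞(i))`. -/
def DD (LN : ℕ → IntermediateField ℚ Om) (P : Ideal ZZ) (d : Gal(Om/ℚ)) : Prop :=
  StP P d ∧ (∀ n : ℕ, Fx (LN n) d) ∧ ∀ i : Om, i ^ 2 = -1 → d i = i

/-- `d` is in `D_P`, fixes `L` and the roots of unity of order `2 ^ m`. -/
def DL (L : IntermediateField ℚ Om) (P : Ideal ZZ) (m : ℕ) (d : Gal(Om/ℚ)) : Prop :=
  StP P d ∧ Fx L d ∧ ∀ z : Om, z ^ 2 ^ m = 1 → d z = z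

/-- (120 lines) **D2** (from Iu, X0). `L_(N+1) = L_N + L_N y`, `y = ζ' + ζ'⁻¹`.
PROOF. `ζ = ζ' ^ 2` has order `2 ^ N` (`IsPrimitiveRoot.pow`), `y ^ 2 = xx ζ ≠ 0` (X0). Let `s` be from Iu for `m = N + 1`,
`u = 1 + 2 ^ N`: `s ζ' = ζ' * ζ' ^ 2 ^ N = - ζ'` (`ζ' ^ 2 ^ N = -1`), `s y = - y`, `s` fixes `L` (`Sit.inr`). Put `α = (ρ + s ρ) / 2`,
`β = (ρ - s ρ) / (2 y)`: `ρ = α + β y`. To show `α ∈ L_N`, `β ∈ L_N` use `mem_of_Fx`: let `τ` fix `L_N`. By `Sit.lnx`: `τ` fixes `L`,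
`(τ ζ') ^ 2 = τ ζ = ζ ^ (± 1) = (ζ' ^ (± 1)) ^ 2`, so `τ ζ'` is `ζ'`, `ζ'⁻¹`, `- ζ'` or `- ζ'⁻¹`. In the first two cases `τ` fixes `L_(N+1)`
(`Sit.lnx`), so `τ ρ = ρ`, `τ (s ρ) = s ρ` (`s ρ ∈ L_(N+1)`, `Sit.lnn`), `τ y = y`. In the other two cases `τ' = s⁻¹ τ` fixes `L` and
`τ' ζ' = ζ' ^ (± 1)` (`s⁻¹ (- ζ') = ζ'`), so it fixes `L_(N+1)`, as does `s s` (`s (s ζ') = ζ'`): `τ ρ = s (τ' ρ) = s ρ`,
`τ (s ρ) = s (τ' (s ρ)) = s (s ρ) = ρ`, `τ y = s (τ' y) = s y = - y`. So `τ α = α`, `τ β = β`. -/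
def S_D2 : Prop :=
  DI.GL.S_Iu → DI.GL.S_X0 → ∀ (L : IntermediateField ℚ Om) (LN : ℕ → IntermediateField ℚ Om) (P : Ideal ZZ),
    Sit L LN P → ∀ N : ℕ, 2 ≤ N → ∀ ζ' : Om,
    IsPrimitiveRoot ζ' (2 ^ (N + 1)) → ∀ ρ ∈ LN (N + 1),
    ∃ α ∈ LN N, ∃ β ∈ LN N, ρ = α + β * (ζ' + ζ'⁻¹)

/-- (120 lines) **Ev** (from X0, D2). The valuation of an element of `L_N` is not half of the valuation of `xx ζ`.
PROOF. Induction on `N ≥ 2`. `N = 2`: `LN 2 ≤ L`: `mem_of_Fx`: if `τ` fixes `L` then `τ ζ` has order 4, so it is `ζ` or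
`ζ ^ 3 = ζ⁻¹` (its square is `-1 = ζ ^ 2`, so `τ ζ = ± ζ`, `- ζ = ζ⁻¹`), and `τ` fixes `LN 2` (`Sit.lnx`). `xx ζ = 2`. Suppose
`UP P (ρ ^ 2 / 2)`. Then `MP P (ρ ^ 2)`, `MP P ρ`, `VP P (ρ / 2)` (`Sit.unr`), `VP P ((ρ / 2) ^ 2)`, i.e. `VP P ((ρ ^ 2 / 2) / 2)`; times the inverse of the
unit: `VP P (1 / 2)`, times `2`: `MP P 1`, contradiction. Step `N → N + 1`: `ζ'` of order `2 ^ (N+1)`, `ζ = ζ' ^ 2`, `x = xx ζ`, `x' = xx ζ'`,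
`y = ζ' + ζ'⁻¹`, `y ^ 2 = x`, `UP P (x' ^ 2 / x)` (X0). Suppose `UP P (ρ ^ 2 / x')`; then `UP P (ρ ^ 4 / x)` (*). By D2
`ρ = α + β y`. (a) If `α ≠ 0` then not `UP P (α ^ 4 / x)`: IH for `α ^ 2`. (b) If `β ≠ 0` then not `UP P (β ^ 4 * x)`: otherwise
`UP P ((β⁻¹ ^ 2) ^ 2 / x)` (the inverse), IH for `β⁻¹ ^ 2`. (c) If `α, β ≠ 0` and `t = α / (β y)` then not `UP P t`: `t ^ 2 = (α / β) ^ 2 / x`, IH.
Cases: `α = 0`: `ρ ^ 4 / x = β ^ 4 x` (and `β ≠ 0` as `ρ ≠ 0`: `UP` elements are not `0`). `β = 0`: `ρ ^ 4 / x = α ^ 4 / x`.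
Both `≠ 0`: by (c) and `VP.or_inv` either `MP P t` or `MP P t⁻¹`. In the first case `ρ = β y (1 + t)`,
`ρ ^ 4 / x = β ^ 4 x (1 + t) ^ 4` and `1 + t` is a unit: (b). In the second case `ρ = α (1 + t⁻¹)`: (a). -/
def S_Ev : Prop :=
  DI.GL.S_X0 → (∀ (L : IntermediateField ℚ Om) (LN : ℕ → IntermediateField ℚ Om) (P : Ideal ZZ),
    Sit L LN P → ∀ N : ℕ, 2 ≤ N → ∀ ζ' : Om,
    IsPrimitiveRoot ζ' (2 ^ (N + 1)) → ∀ ρ ∈ LN (N + 1),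
    ∃ α ∈ LN N, ∃ β ∈ LN N, ρ = α + β * (ζ' + ζ'⁻¹)) →
  ∀ (L : IntermediateField ℚ Om) (LN : ℕ → IntermediateField ℚ Om) (P : Ideal ZZ),
    Sit L LN P → ∀ N : ℕ, 2 ≤ N → ∀ ζ : Om, IsPrimitiveRoot ζ (2 ^ N) →
    ∀ ρ ∈ LN N, ¬ UP P (ρ ^ 2 / xx ζ)

/-- (90 lines) **G4** (from X0, D2, Ev). `s r - r` is in `2 V_P`.
PROOF. `N = M + 1`, `2 ≤ M`; `ζ'` of order `2 ^ N` (exists), `ζ = ζ' ^ 2`, `x = xx ζ`, `y = ζ' + ζ'⁻¹`, `y ^ 2 = x`, `x ≠ 0`. `r = α + β y`, `α, β ∈ L_M`. `s` fixes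
`L_M` (`Sit.lnx`: `s ζ = (s ζ') ^ 2 = ζ`), `s y = - y`, so `s r - r = - 2 β y`; it is enough that `VP P (β y)`. `α = 0`: `β y = r`. `β = 0`: clear.
Otherwise `t = α / (β y)` is not a unit (`t ^ 2 = (α / β) ^ 2 / x`, Ev). If `MP P t`: `β y = r (1 + t)⁻¹`, `1 + t` a unit. If
`MP P t⁻¹`: `α = r (1 + t⁻¹)⁻¹` is in `V_P`, `β y = α t⁻¹`. (`VP.or_inv`, `UP.inv`, `UP.congr`.) -/
def S_G4 : Prop :=
  DI.GL.S_X0 → (∀ (L : IntermediateField ℚ Om) (LN : ℕ → IntermediateField ℚ Om) (P : Ideal ZZ),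
    Sit L LN P → ∀ N : ℕ, 2 ≤ N → ∀ ζ' : Om,
    IsPrimitiveRoot ζ' (2 ^ (N + 1)) → ∀ ρ ∈ LN (N + 1),
    ∃ α ∈ LN N, ∃ β ∈ LN N, ρ = α + β * (ζ' + ζ'⁻¹)) →
  (∀ (L : IntermediateField ℚ Om) (LN : ℕ → IntermediateField ℚ Om) (P : Ideal ZZ),
    Sit L LN P → ∀ N : ℕ, 2 ≤ N → ∀ ζ : Om, IsPrimitiveRoot ζ (2 ^ N) →
    ∀ ρ ∈ LN N, ¬ UP P (ρ ^ 2 / xx ζ)) →
  ∀ (L : IntermediateField ℚ Om) (LN : ℕ → IntermediateField ℚ Om) (P : Ideal ZZ),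
    Sit L LN P → ∀ N : ℕ, 3 ≤ N → ∀ s : Gal(Om/ℚ), Fx L s →
    (∀ ζ : Om, IsPrimitiveRoot ζ (2 ^ N) → s ζ = -ζ) → ∀ r ∈ LN N, VP P r → TP P 2 (s r - r)

/-- (100 lines) **Cpt** (from Stb). Compactness.
PROOF. Suppose not. Then for every `m0` there is `m ≥ m0` and `d` with `DL L P m d` and `d r ≠ r`; then also `DL L P m0 d` (`z ^ 2 ^ m0 = 1` gives
`z ^ 2 ^ m = 1`). So the sets `C m = {d | DL L P m d ∧ d r ≠ r}` are not empty; they decrease with `m` and are closed: `StP` by Stb, `Fx` and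
`d z = z` are conditions `d x = x` (closed, even clopen: `QZ.eq_closed'` in `MuZ/QZ.lean`), and `{d | d r = r}` is the stabiliser of `r`, open
(`stabilizer_isOpen_of_isIntegral`). The group is compact, so there is `d` in all `C m` (`IsCompact.nonempty_iInter_of_directed_nonempty_isCompact_isClosed`
or `IsCompact.nonempty_iInter_of_sequence_nonempty_isCompact_isClosed`). `d` fixes `L` and all roots of unity of order a power of 2, so it fixes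
all `L_n` (`Sit.lnx`) and every `i` with `i ^ 2 = -1` (`i ^ 2 ^ 2 = 1`): `DD LN P d`, so `d r = r`: contradiction. -/
def S_Cpt : Prop :=
  DI.GL.S_Stb → ∀ (L : IntermediateField ℚ Om) (LN : ℕ → IntermediateField ℚ Om) (P : Ideal ZZ),
    Sit L LN P → ∀ r : Om, (∀ d : Gal(Om/ℚ), DD LN P d → d r = r) →
    ∃ m0 : ℕ, ∀ m : ℕ, m0 ≤ m → ∀ d : Gal(Om/ℚ), DL L P m d → d r = r

/-- (200 lines) **G8a** (from Iu, X0, Stb, Kap, Pw). The Kummer character of `w` on `D_P ∩ Gal(Om/L_N)` is that of `± 1` or `± xx ζ`.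
PROOF. One may enlarge `m` (`DL L P m' d → DL L P m d` for `m ≤ m'`), so let `m ≥ N + 1`, and `z0` a primitive `2 ^ m`-th root of unity with
`z0 ^ 2 ^ (m - N) = ζ` (take any `z1`; `ζ` is a power `(z1 ^ 2 ^ (m - N)) ^ i`, `i` odd, put `z0 = z1 ^ i`). Iu: `d1` with `u = 2 ^ m - 1` (so
`d1 z = z⁻¹` if `z ^ 2 ^ m = 1`), `d2` with `u = 1 + 2 ^ N`. Both are in the inertia group, so `StP` (Stb), `Fx (L)` (`Sit.inr`), and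
they fix `L_N` (`Sit.lnx`: `d1 ζ = ζ⁻¹`, `d2 ζ = ζ`). Let `x = xx ζ`, `ζ1 = z0 ^ 2 ^ (m - N - 1)`: `ζ1 ^ 2 = ζ`, `y = ζ1 + ζ1⁻¹`, `y ^ 2 = x` (X0),
`d1 y = y`, `d2 y = - y` (`ζ1 ^ 2 ^ N = -1`); `i = z0 ^ 2 ^ (m - 2)`, `i ^ 2 = -1`, `d1 i = - i`, `d2 i = i`. So (Kap 1) `kap (-1) d1 = 1`, `kap (-1) d2 = 0`,
`kap x d1 = 0`, `kap x d2 = 1` (values in `ZMod 2`; not `0` means `1`). Put `e = 1` if `kap w d1 = 0`, `e = -1` otherwise; `b = 0` if `kap w d2 = 0`, `b = 1`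
otherwise, `w' = w * (e * x ^ b)`; all factors are fixed by the elements which fix `L_N` (`x ∈ L_N` by `mem_of_Fx`, `Sit.lnx`), so by Kap 2 `kap w' d1 = 0`, `kap w' d2 = 0`.
If `DL L P m d` then `kap w' d = 0`: `kap w d = 0` by hypothesis, `d i = i`, `d y = y`. Let `StP P d`, `Fx (LN N) d`. `d z0 = z0 ^ c`, `c` odd (`d z0` is
a primitive root), and `d ζ = ζ ^ (± 1)` gives `c ≡ 1` or `c ≡ -1` modulo `2 ^ N`. If `c ≡ 1`: Pw: `t` with `c ≡ (1 + 2 ^ N) ^ t` modulo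
`2 ^ m`; `d2 ^ t z0 = z0 ^ ((1 + 2 ^ N) ^ t) = d z0`, so `(d2 ^ t)⁻¹ * d` satisfies `DL L P m` (all `z` with `z ^ 2 ^ m = 1` are powers of
`z0`; `StP` is the stabiliser, a subgroup, by Stb), and `kap w' d = t * kap w' d2 + kap w' ((d2 ^ t)⁻¹ * d) = 0` (Kap 3; `kap w' (d2 ^ t) = 0` by induction). If
`c ≡ -1`: apply this to `d1 * d` (`(d1 * d) z0 = z0 ^ ((2 ^ m - 1) * c)`): `0 = kap w' (d1 * d) = kap w' d1 + kap w' d = kap w' d`. Conclude by Kap 1. -/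
def S_G8a : Prop :=
  DI.GL.S_Iu → DI.GL.S_X0 → DI.GL.S_Stb → DI.GL.S_Kap → DI.GL.S_Pw → ∀ (L : IntermediateField ℚ Om) (LN : ℕ → IntermediateField ℚ Om) (P : Ideal ZZ),
    Sit L LN P → ∀ N : ℕ, 2 ≤ N →
    ∀ ζ : Om, IsPrimitiveRoot ζ (2 ^ N) → ∀ w ∈ LN N, w ≠ 0 → ∀ m : ℕ,
    (∀ d : Gal(Om/ℚ), DL L P m d → kap w d = 0) →
    ∃ (e : Om) (b : ℕ), (e = 1 ∨ e = -1) ∧ (b = 0 ∨ b = 1) ∧
      ∀ r : Om, r ^ 2 = w * (e * xx ζ ^ b) → ∀ d : Gal(Om/ℚ), StP P d → Fx (LN N) d → d r = r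

/-- (150 lines) **G8b** (from Iu, X0, App, Ev, G4). `Ap`, `Evn`, `G4s` are the conclusions of App, Ev, G4.
PROOF. `x = xx ζ ∈ L_N` (`mem_of_Fx`, `Sit.lnx`: `τ ζ = ζ ^ (± 1)`), so `r ^ 2 ∈ L_N`. App with `F = LN N`, `M = 2`: `r' ∈ L_N`, `r - r' = 4 y`, `VP P y`.
`VP P r` as `r ^ 2 = w e x ^ b` is in `V_P` (`VP.of_pow`; `VP P x`). So `VP P r'`. CASE `b = 1`: `r' ^ 2 / x = w e - 4 (2 / x) (r y) + 8 (2 / x) y ^ 2`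
(from `r' = r - 4 y`; `x ≠ 0`, `VP P (2 / x)` by X0): a unit (`w e` is a unit, the rest is in `M_P`), against Ev for `ρ = r'`. CASE `b = 0`: `r ^ 2 = w e`. Iu
with `m = N`, `u = 1 + 2 ^ (N-1)`: `ι` in the inertia group, `ι ζ = - ζ = s ζ` (`ζ ^ 2 ^ (N-1) = -1`), `ι` and `s` fix `L`, so
`s⁻¹ ι` fixes `L` and `ζ`, hence `L_N` (`Sit.lnx`): `ι = s` on `L_N`. By G4 `TP P 2 (s r' - r')`, i.e. `TP P 2 (ι r' - r')`, and `ι r = ι r' + 4 ι y`, `VP P (ι y)`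
(`VP.inertia_vp`), so `ι r - r = (ι r' - r') + 4 (ι y - y)` is in `2 V_P`, and `ι r + r = (ι r - r) + 2 r` too. The product is
`ι (r ^ 2) - r ^ 2 = e (s w - w)` (`ι w = s w`, `ι e = e`), in `4 V_P`; divide by `e = ± 1`. -/
def S_G8b : Prop :=
  DI.GL.S_Iu → DI.GL.S_X0 → (∀ (F : IntermediateField ℚ Om) (P : Ideal ZZ), P.IsPrime → MP P 2 →
    ∀ r : Om, r ^ 2 ∈ F → (∀ d : Gal(Om/ℚ), StP P d → Fx F d → d r = r) →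
    ∀ M : ℕ, ∃ r' ∈ F, TP P (2 ^ M) (r - r')) →
  (∀ (L : IntermediateField ℚ Om) (LN : ℕ → IntermediateField ℚ Om) (P : Ideal ZZ),
    Sit L LN P → ∀ N : ℕ, 2 ≤ N → ∀ ζ : Om, IsPrimitiveRoot ζ (2 ^ N) →
    ∀ ρ ∈ LN N, ¬ UP P (ρ ^ 2 / xx ζ)) →
  (∀ (L : IntermediateField ℚ Om) (LN : ℕ → IntermediateField ℚ Om) (P : Ideal ZZ),
    Sit L LN P → ∀ N : ℕ, 3 ≤ N → ∀ s : Gal(Om/ℚ), Fx L s →
    (∀ ζ : Om, IsPrimitiveRoot ζ (2 ^ N) → s ζ = -ζ) → ∀ r ∈ LN N, VP P r → TP P 2 (s r - r)) →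
  ∀ (L : IntermediateField ℚ Om) (LN : ℕ → IntermediateField ℚ Om) (P : Ideal ZZ),
    Sit L LN P → ∀ N : ℕ, 3 ≤ N → ∀ s : Gal(Om/ℚ), Fx L s →
    (∀ ζ : Om, IsPrimitiveRoot ζ (2 ^ N) → s ζ = -ζ) → ∀ ζ : Om, IsPrimitiveRoot ζ (2 ^ N) →
    ∀ w ∈ LN N, UP P w → ∀ (e : Om) (b : ℕ), (e = 1 ∨ e = -1) → (b = 0 ∨ b = 1) →
    ∀ r : Om, r ^ 2 = w * (e * xx ζ ^ b) → (∀ d : Gal(Om/ℚ), StP P d → Fx (LN N) d → d r = r) →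
    TP P 4 (s w - w)

/-- (60 lines) **G8.** The local lemma. PROOF (from Cpt, Kap, and the conclusions of G8a, G8b). `r0 = sqr w`, `r0 ^ 2 = w` (`sqr_sq`). For `DD LN P d`:
`kap w d = 0`, so `d r0 = r0` (Kap 1). Cpt: `m0`; for `DL L P m0 d`: `d r0 = r0`, `kap w d = 0`. A primitive `2 ^ N`-th root of unity `ζ`
(`HasEnoughRootsOfUnity.exists_primitiveRoot`). G8a with `m = m0` (`w ≠ 0`): `e`, `b`. Let `r` be a square root of `w * (e * xx ζ ^ b)`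
(`IsAlgClosed.exists_pow_nat_eq`, or `sqr`). G8b. -/
def S_G8 : Prop :=
  (∀ (L : IntermediateField ℚ Om) (LN : ℕ → IntermediateField ℚ Om) (P : Ideal ZZ),
    Sit L LN P → ∀ r : Om, (∀ d : Gal(Om/ℚ), DD LN P d → d r = r) →
    ∃ m0 : ℕ, ∀ m : ℕ, m0 ≤ m → ∀ d : Gal(Om/ℚ), DL L P m d → d r = r) → DI.GL.S_Kap →
  (∀ (L : IntermediateField ℚ Om) (LN : ℕ → IntermediateField ℚ Om) (P : Ideal ZZ),
    Sit L LN P → ∀ N : ℕ, 2 ≤ N →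
    ∀ ζ : Om, IsPrimitiveRoot ζ (2 ^ N) → ∀ w ∈ LN N, w ≠ 0 → ∀ m : ℕ,
    (∀ d : Gal(Om/ℚ), DL L P m d → kap w d = 0) →
    ∃ (e : Om) (b : ℕ), (e = 1 ∨ e = -1) ∧ (b = 0 ∨ b = 1) ∧
      ∀ r : Om, r ^ 2 = w * (e * xx ζ ^ b) → ∀ d : Gal(Om/ℚ), StP P d → Fx (LN N) d → d r = r) →
  (∀ (L : IntermediateField ℚ Om) (LN : ℕ → IntermediateField ℚ Om) (P : Ideal ZZ),
    Sit L LN P → ∀ N : ℕ, 3 ≤ N → ∀ s : Gal(Om/ℚ), Fx L s →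
    (∀ ζ : Om, IsPrimitiveRoot ζ (2 ^ N) → s ζ = -ζ) → ∀ ζ : Om, IsPrimitiveRoot ζ (2 ^ N) →
    ∀ w ∈ LN N, UP P w → ∀ (e : Om) (b : ℕ), (e = 1 ∨ e = -1) → (b = 0 ∨ b = 1) →
    ∀ r : Om, r ^ 2 = w * (e * xx ζ ^ b) → (∀ d : Gal(Om/ℚ), StP P d → Fx (LN N) d → d r = r) →
    TP P 4 (s w - w)) →
  ∀ (L : IntermediateField ℚ Om) (LN : ℕ → IntermediateField ℚ Om) (P : Ideal ZZ),
    Sit L LN P → ∀ N : ℕ, 3 ≤ N → ∀ s : Gal(Om/ℚ), Fx L s →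
    (∀ ζ : Om, IsPrimitiveRoot ζ (2 ^ N) → s ζ = -ζ) → ∀ w ∈ LN N, UP P w →
    (∀ d : Gal(Om/ℚ), DD LN P d → kap w d = 0) → TP P 4 (s w - w)

/-- (100 lines) **RR** (from the second part of Arch). The ring generated by roots of unity of odd order is unramified at `2`.
PROOF. Let `R = Algebra.adjoin ℤ (Set.range χ)` and `q = 2 ^ φ(m)` (`Nat.ModEq.pow_totient`; for `m = 1`, `φ(m) = 1`), so `m ∣ q - 1`, `q ≥ 2`, and `z ^ q = z`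
for every generator. Claim: for all `x ∈ R` there is `y ∈ R` with `x ^ q = x + 2 y`. `Algebra.adjoin_induction`: generators `y = 0`; integers:
`n ^ q ≡ n` modulo 2; sums: `(x + x') ^ q = x ^ q + x' ^ q` modulo `2 R` (by induction from squares: `(x + x') ^ 2 = x ^ 2 + x' ^ 2 + 2 x x'`, and if `a = b + 2 c` then
`a ^ 2 = b ^ 2 + 2 (2 b c + 2 c ^ 2)`; `q` is a power of two); products clear. By induction on `k`: `x ^ q ^ k = x + 2 y`, `y ∈ R` (if `a = b + 2 c` then `a ^ q = b ^ q + 2 (..)`,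
because `a - b ∣ a ^ q - b ^ q` in `R`). All elements of `R` are integral, so in `V_P`. By Arch 2 (`M = 1`) `TP P 2 (x ^ q ^ k)` for large `k` (`q ^ k ≥ k`), so `TP P 2 x`. -/
def S_RR : Prop :=
  (∀ P : Ideal ZZ, P.IsPrime → MP P 2 → ∀ y : Om, MP P y → ∀ M : ℕ, ∃ K : ℕ, ∀ n : ℕ, K ≤ n →
    TP P (2 ^ M) (y ^ n)) →
  ∀ (ι : Type) (χ : ι → Om) (m : ℕ), Odd m → (∀ v, χ v = 0 ∨ χ v ^ m = 1) → ∀ P : Ideal ZZ, P.IsPrime →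
    MP P 2 → ∀ x ∈ Algebra.adjoin ℤ (Set.range χ), MP P x → TP P 2 x

/-- (90 lines) **Lin.** A basis of the residues of the `χ v`, over the field with two elements.
PROOF. Induction on `D` (`Finset.induction_on`), the claim for all `D`. `D = ∅`: `n = 0`. `D = insert v D'`: let `n, b, c` be for `D'`. If there are `c0 : Fin n → ℕ` with
`MP P (χ v - ∑ i, c0 i * χ (b i))` keep `n, b` and put `c i v := c0 i` (`Function.update`). Otherwise `b' = Fin.snoc b v` (or use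
`Option`/`Fin.cons`), `c'` for the new index `1` at `v` and `0` elsewhere, for the old indices `0` at `v`. Independence: let `MP P (∑ i, e i χ(b i) + e0 χ v)`. If `e0` is even, `e0 χ v` is in
`M_P` and the rest is the hypothesis for `D'`. If `e0` is odd then `MP P (χ v + ∑ i, e i χ (b i))`, so `MP P (χ v - ∑ i, e i χ (b i))`
(`MP P 2`), excluded. -/
def S_Lin : Prop :=
  ∀ P : Ideal ZZ, P.IsPrime → MP P 2 → ∀ (ι : Type) (χ : ι → Om), (∀ v, VP P (χ v)) → ∀ D : Finset ι,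
    ∃ (n : ℕ) (b : Fin n → ι) (c : Fin n → ι → ℕ),
      (∀ e : Fin n → ℕ, MP P (∑ i, (e i : Om) * χ (b i)) → ∀ i, 2 ∣ e i) ∧
      ∀ v ∈ D, MP P (χ v - ∑ i, (c i v : Om) * χ (b i))

/-- (80 lines) **Dad.** `w ↦ s w / w - 1` is additive modulo `4`.
PROOF. Write `C w = s w / w - 1`. `C (w w') = C w + C w' + C w * C w'` (`w, w' ≠ 0`). So if `C w, C w' ∈ 2 V_P` then `C (w w') = C w + C w'` modulo `4 V_P`, and it
is in `2 V_P`. `C 1 = 0`. Powers by induction, then induction on the finset; carry along that `C` of the product is in `2 V_P`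
(`4 V_P ⊆ 2 V_P`). -/
def S_Dad : Prop :=
  ∀ P : Ideal ZZ, P.IsPrime → MP P 2 → ∀ (s : Gal(Om/ℚ)) (ι : Type) (D : Finset ι) (u : ι → Om) (c : ι → ℕ),
    (∀ v ∈ D, u v ≠ 0 ∧ TP P 2 (s (u v) / u v - 1)) →
    TP P 4 ((s (∏ v ∈ D, u v ^ c v) / (∏ v ∈ D, u v ^ c v) - 1) -
      ∑ v ∈ D, (c v : Om) * (s (u v) / u v - 1))

/-- (150 lines) **G9** (from RR, Lin, Dad, Kap and the conclusions of G4, G8). Passage from `kap` to `D`.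
PROOF. `VP P (χ v)` (roots of unity, `VP.integral`). Lin: `n, b, c`. For `v ∈ D` the element `ρ v = χ v - ∑ i, c i v * χ (b i)` is in
`Algebra.adjoin ℤ (Set.range χ)` and in `M_P`, so `TP P 2 (ρ v)` (RR). Let `w i = ∏ v ∈ D, u v ^ c i v`: in `L_N`, a unit. For `DD LN P d` (then `Fx (LN N) d`, `d (u v) = u v`):
`∑ v, χ v * (kap (u v) d).val = ∑ v, ρ v * (..) + ∑ i, (∑ v ∈ D, c i v * (kap (u v) d).val : ℕ) * χ (b i)`, so the last sum is in `M_P` and by Lin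
`2 ∣ ∑ v ∈ D, c i v * (kap (u v) d).val` for all `i`; in `ZMod 2` this is `kap (w i) d = 0` (Kap 4, `ZMod.natCast_zmod_val`). G8: `TP P 4 (s (w i) - w i)`, so
`TP P 4 (s (w i) / w i - 1)` (`w i` is a unit). G4: `TP P 2 (s (u v) - u v)`, `TP P 2 (s (u v) / u v - 1)`. Dad: `TP P 4 (∑ v ∈ D, c i v * C (u v))`, `C w = s w / w - 1`. Finally
`∑ v, χ v * C (u v) = ∑ v, ρ v * C (u v) + ∑ i, χ (b i) * ∑ v, c i v * C (u v)`: the first sum is in `2 V_P * 2 V_P`, the second in `4 V_P`. -/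
def S_G9 : Prop :=
  DI.GL.S_Kap → (∀ (ι : Type) (χ : ι → Om) (m : ℕ), Odd m → (∀ v, χ v = 0 ∨ χ v ^ m = 1) → ∀ P : Ideal ZZ, P.IsPrime →
    MP P 2 → ∀ x ∈ Algebra.adjoin ℤ (Set.range χ), MP P x → TP P 2 x) → S_Lin → S_Dad →
  (∀ (L : IntermediateField ℚ Om) (LN : ℕ → IntermediateField ℚ Om) (P : Ideal ZZ),
    Sit L LN P → ∀ N : ℕ, 3 ≤ N → ∀ s : Gal(Om/ℚ), Fx L s →
    (∀ ζ : Om, IsPrimitiveRoot ζ (2 ^ N) → s ζ = -ζ) → ∀ r ∈ LN N, VP P r → TP P 2 (s r - r)) →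
  (∀ (L : IntermediateField ℚ Om) (LN : ℕ → IntermediateField ℚ Om) (P : Ideal ZZ),
    Sit L LN P → ∀ N : ℕ, 3 ≤ N → ∀ s : Gal(Om/ℚ), Fx L s →
    (∀ ζ : Om, IsPrimitiveRoot ζ (2 ^ N) → s ζ = -ζ) → ∀ w ∈ LN N, UP P w →
    (∀ d : Gal(Om/ℚ), DD LN P d → kap w d = 0) → TP P 4 (s w - w)) →
  ∀ (L : IntermediateField ℚ Om) (LN : ℕ → IntermediateField ℚ Om) (P : Ideal ZZ),
    Sit L LN P → ∀ N : ℕ, 3 ≤ N → ∀ s : Gal(Om/ℚ), Fx L s →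
    (∀ ζ : Om, IsPrimitiveRoot ζ (2 ^ N) → s ζ = -ζ) → ∀ (ι : Type) (D : Finset ι) (u : ι → Om),
    (∀ v ∈ D, u v ∈ LN N ∧ UP P (u v)) → ∀ (χ : ι → Om) (m : ℕ), Odd m →
    (∀ v, χ v = 0 ∨ χ v ^ m = 1) →
    (∀ d : Gal(Om/ℚ), DD LN P d → MP P (∑ v ∈ D, χ v * ((kap (u v) d).val : Om))) →
    TP P 4 (∑ v ∈ D, χ v * (s (u v) / u v - 1))

end Pool.Agent.DK.GL
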